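import Pool.Agent.MP_ca0a54_nt.H24.Spec
import Pool.Agent.MP_ca0a54_nt.L0.Factor
import Pool.Agent.MP_ca0a54_nt.L0.Lower

/-!
Local factorization of `zf` near a point `t` well inside the strip `T ≤ re w ≤ 2 T`.
-/

open Complex Filter Topology Metric

namespace Pool.Agent.MP_ca0a54_nt.H51

open Pool.Agent.MP_ca0a54_nt.L0 Pool.Agent.MP_ca0a54_nt.H24

/-- A logarithm of a product of linear factors whose roots lie outside a ball. -/
theorem log_prod (W : Finset ℝ) (t r : ℝ) (hW : ∀ u ∈ W, r ≤ |u - t|) :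
    ∃ k : ℂ → ℂ, ∀ w ∈ ball (t : ℂ) r, (∏ u ∈ W, (w - (u : ℂ))) = exp (k w) ∧
      HasDerivAt k (∑ u ∈ W, (w - (u : ℂ))⁻¹) w := by
  refine ⟨fun w => ∑ u ∈ W, (log ((t : ℂ) - u) + log (1 + (w - t) / ((t : ℂ) - u))),
    fun w hw => ?_⟩
  rw [mem_ball, dist_eq_norm] at hw
  have h1 : ∀ u ∈ W, ‖w - t‖ < ‖(t : ℂ) - u‖ := by
    intro u hu
    rw [← ofReal_sub, norm_real, Real.norm_eq_abs, abs_sub_comm]
    exact hw.trans_le (hW u hu)
  have h2 : ∀ u ∈ W, (t : ℂ) - u ≠ 0 := fun u hu =>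
    norm_pos_iff.1 ((norm_nonneg _).trans_lt (h1 u hu))
  have h3 : ∀ u ∈ W, 1 + (w - t) / ((t : ℂ) - u) ∈ slitPlane := by
    intro u hu
    refine mem_slitPlane_of_norm_lt_one ?_
    rw [norm_div, div_lt_one (norm_pos_iff.2 (h2 u hu))]
    exact h1 u hu
  have h4 : ∀ u ∈ W, ((t : ℂ) - u) * (1 + (w - t) / ((t : ℂ) - u)) = w - u := by
    intro u hu
    have := h2 u hu
    field_simp
    ring
  constructor
  · rw [exp_sum]
    refine Finset.prod_congr rfl fun u hu => ?_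
    rw [exp_add, exp_log (h2 u hu), exp_log (slitPlane_ne_zero (h3 u hu)), h4 u hu]
  · refine HasDerivAt.fun_sum fun u hu => ?_
    have h5 : HasDerivAt (fun w : ℂ => 1 + (w - t) / ((t : ℂ) - u)) (1 / ((t : ℂ) - u)) w :=
      (((hasDerivAt_id w).sub_const (t : ℂ)).div_const _).const_add 1
    have h6 := (h5.clog (h3 u hu)).const_add (log ((t : ℂ) - u))
    refine h6.congr_deriv ?_
    rw [← h4 u hu, div_div, one_div]

/-- The factorization with the zeros near `t` only. -/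
theorem near : ∃ A : ℝ, 0 < A ∧ ∀ (T R t δ : ℝ) (U : Finset ℝ), 160 ≤ R → R ≤ T →
    T ≤ t - R / 2 → t + R / 2 ≤ 2 * T → Clean T δ U → (U.card : ℝ) ≤ 2 * T * Real.log T →
    ∃ h : ℂ → ℂ, DifferentiableOn ℂ h (ball (t : ℂ) (R / 4)) ∧
      (∀ w ∈ ball (t : ℂ) (R / 4),
        zf w = (∏ u ∈ U.filter fun u => |u - t| ≤ R / 4, (w - (u : ℂ))) * exp (h w)) ∧
      ∀ w ∈ ball (t : ℂ) (R / 4), (h w - h (t - I)).re ≤ A * T * Real.log T := by
  classical
  obtain ⟨C₁, hC₁, hg₁⟩ := zf_growth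
  obtain ⟨C₂, hC₂, hg₂⟩ := zf_right
  refine ⟨C₁ + C₂ + 2, by positivity, fun T R t δ U hR hRT ht₁ ht₂ hU hcardU => ?_⟩
  have hT0 : 0 < T := by linarith
  have hR0 : 0 < R := by linarith
  have hL : 1 ≤ Real.log T := by
    rw [Real.le_log_iff_exp_le hT0]
    linarith [Real.exp_one_lt_d9]
  set L := Real.log T with hLdef
  set c : ℂ := (t : ℂ) with hc
  set V := U.filter fun u => |u - t| ≤ R / 4 with hV
  have hVU : ∀ u ∈ V, u ∈ U := fun u hu => (Finset.mem_filter.1 hu).1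
  have hVa : ∀ u ∈ V, |u - t| ≤ R / 4 := fun u hu => (Finset.mem_filter.1 hu).2
  have hΩ : IsOpen {w : ℂ | 0 < w.re} := isOpen_lt continuous_const continuous_re
  have hVc : ∀ u ∈ V, ‖(u : ℂ) - c‖ ≤ R / 4 := by
    intro u hu
    rw [hc, ← ofReal_sub, norm_real, Real.norm_eq_abs]
    exact hVa u hu
  have hball : ∀ w : ℂ, ‖w - c‖ ≤ R / 2 → T ≤ w.re ∧ w.re ≤ 2 * T ∧ |w.im| ≤ T := by
    intro w hw
    have h1 := (abs_re_le_norm (w - c)).trans hw
    have h2 := (abs_im_le_norm (w - c)).trans hw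
    simp only [hc, sub_re, ofReal_re, sub_im, ofReal_im, sub_zero] at h1 h2
    rw [abs_le] at h1
    exact ⟨by linarith [h1.1], by linarith [h1.2], by linarith⟩
  have hV0 : ∀ u ∈ V, (u : ℂ) ∈ {w : ℂ | 0 < w.re} ∧ zf u = 0 := by
    intro u hu
    have hb := hball u ((hVc u hu).trans (by linarith))
    exact ⟨lt_of_lt_of_le hT0 hb.1, (hU.zeros u hb.1 hb.2.1).2 ⟨u, hVU u hu, rfl⟩⟩
  obtain ⟨g, hg, hfg⟩ := Factor.exists_quot _ hΩ zf zf_differentiableOn V hV0
  have hcard : (V.card : ℝ) ≤ 2 * T * L :=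
    le_trans (Nat.cast_le.2 (Finset.card_filter_le _ _)) hcardU
  have hcb : closedBall c (R / 2) ⊆ {w : ℂ | 0 < w.re} := fun w hw =>
    lt_of_lt_of_le hT0 (hball w (by simpa [dist_eq_norm] using hw)).1
  have hmax : ∀ w ∈ ball c (R / 4), ‖g w‖ ≤ Real.exp (C₁ * T * L) / (R / 4) ^ V.card := by
    intro w hw
    refine norm_le_of_forall_mem_frontier_norm_le (U := ball c (R / 2)) isBounded_ball
      (hg.diffContOnCl_ball hcb) (fun z hz => ?_)
      (subset_closure (ball_subset_ball (by linarith) hw))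
    rw [frontier_ball c (by positivity), mem_sphere, dist_eq_norm] at hz
    have hb := hball z hz.le
    have h1 := hg₁ T (by linarith) z hb.1 hb.2.1 hb.2.2
    have h2 : (R / 4) ^ V.card ≤ ‖∏ u ∈ V, (z - (u : ℂ))‖ := by
      rw [norm_prod, ← Finset.prod_const]
      refine Finset.prod_le_prod (fun _ _ => by positivity) fun u hu => ?_
      have h3 : ‖z - c‖ ≤ ‖z - u‖ + ‖(u : ℂ) - c‖ := by
        calc ‖z - c‖ = ‖(z - u) + (u - c)‖ := by rw [sub_add_sub_cancel]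
          _ ≤ _ := norm_add_le _ _
      linarith [hVc u hu]
    rw [hfg z, norm_mul] at h1
    rw [le_div_iff₀ (by positivity)]
    calc ‖g z‖ * (R / 4) ^ V.card ≤ ‖g z‖ * ‖∏ u ∈ V, (z - (u : ℂ))‖ := by gcongr
      _ ≤ _ := by rw [mul_comm]; exact h1
  set w₀ : ℂ := c - I with hw₀
  have hw₀c : ‖w₀ - c‖ = 1 := by simp [hw₀]
  have hw₀b : w₀ ∈ ball c (R / 4) := by
    rw [mem_ball, dist_eq_norm, hw₀c]; linarith
  have hlow : 1 ≤ C₂ * (R / 2) ^ V.card * ‖g w₀‖ := by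
    obtain ⟨h1, -, h3⟩ := hg₂ w₀ (by simp [hw₀, hc]; norm_num)
    have h2 : ‖∏ u ∈ V, (w₀ - (u : ℂ))‖ ≤ (R / 2) ^ V.card := by
      rw [norm_prod, ← Finset.prod_const]
      refine Finset.prod_le_prod (fun _ _ => by positivity) fun u hu => ?_
      have h3 : ‖w₀ - u‖ ≤ ‖w₀ - c‖ + ‖(u : ℂ) - c‖ := by
        calc ‖w₀ - u‖ = ‖(w₀ - c) - (u - c)‖ := by rw [sub_sub_sub_cancel_right]
          _ ≤ _ := norm_sub_le _ _
      linarith [hVc u hu]
    have h4 : ‖zf w₀‖ ≤ (R / 2) ^ V.card * ‖g w₀‖ := by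
      rw [hfg w₀, norm_mul]; gcongr
    calc (1 : ℝ) = ‖(zf w₀)⁻¹‖ * ‖zf w₀‖ := by rw [← norm_mul, inv_mul_cancel₀ h1, norm_one]
      _ ≤ C₂ * ((R / 2) ^ V.card * ‖g w₀‖) := by gcongr
      _ = _ := by ring
  have hne : ∀ w ∈ ball c (R / 4), g w ≠ 0 := by
    intro w hw hgw
    rw [mem_ball, dist_eq_norm] at hw
    have hb := hball w (by linarith)
    obtain ⟨u, hu, rfl⟩ := (hU.zeros w hb.1 hb.2.1).1 (by rw [hfg w, hgw, mul_zero])
    have huV : u ∈ V := by
      refine Finset.mem_filter.2 ⟨hu, ?_⟩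
      rw [hc, ← ofReal_sub, norm_real, Real.norm_eq_abs] at hw
      exact hw.le
    exact Factor.quot_ne_zero _ hΩ zf g hg V hfg u huV (hV0 u huV).1 (hU.simple u hu) hgw
  obtain ⟨h, hd, hgh⟩ := Factor.exists_log g c (R / 4)
    (hg.mono fun w hw => hcb (ball_subset_closedBall (ball_subset_ball (by linarith) hw))) hne
  refine ⟨h, hd, fun w hw => by rw [hfg w, hgh w hw], fun w hw => ?_⟩
  have h1 := hmax w hw
  rw [hgh w hw, norm_exp] at h1
  rw [hgh w₀ hw₀b, norm_exp] at hlow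
  have h2 : Real.exp ((h w - h w₀).re) ≤ C₂ * 2 ^ V.card * Real.exp (C₁ * T * L) := by
    rw [sub_re, Real.exp_sub, div_le_iff₀ (Real.exp_pos _)]
    calc Real.exp (h w).re ≤ Real.exp (C₁ * T * L) / (R / 4) ^ V.card * 1 := by
          rw [mul_one]; exact h1
      _ ≤ Real.exp (C₁ * T * L) / (R / 4) ^ V.card *
          (C₂ * (R / 2) ^ V.card * Real.exp (h w₀).re) := by gcongr
      _ = _ := by
        have : (R / 2) ^ V.card = 2 ^ V.card * (R / 4) ^ V.card := by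
          rw [← mul_pow, show 2 * (R / 4) = R / 2 by ring]
        rw [this]
        field_simp
  have h3 : C₂ ≤ Real.exp C₂ := by linarith [Real.add_one_le_exp C₂]
  have h4 : (2 : ℝ) ^ V.card ≤ Real.exp V.card := by
    rw [← mul_one (V.card : ℝ), Real.exp_nat_mul]
    gcongr
    linarith [Real.add_one_le_exp (1 : ℝ)]
  have h5 : Real.exp ((h w - h w₀).re) ≤ Real.exp (C₂ + V.card + C₁ * T * L) := by
    rw [Real.exp_add, Real.exp_add]
    refine h2.trans ?_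
    gcongr
  have h6 := Real.exp_le_exp.1 h5
  have h7 : 1 ≤ T * L := by nlinarith
  nlinarith

/-- The factorization with all the zeros of the strip. -/
theorem full : ∃ A : ℝ, 0 < A ∧ ∀ (T R t δ : ℝ) (U : Finset ℝ), 160 ≤ R → R ≤ T →
    T ≤ t - R / 2 → t + R / 2 ≤ 2 * T → Clean T δ U → (U.card : ℝ) ≤ 2 * T * Real.log T →
    ∃ h : ℂ → ℂ, DifferentiableOn ℂ h (ball (t : ℂ) (R / 8)) ∧
      (∀ w ∈ ball (t : ℂ) (R / 8), zf w = (∏ u ∈ U, (w - (u : ℂ))) * exp (h w)) ∧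
      (∀ w ∈ ball (t : ℂ) (R / 8), ‖deriv h w‖ ≤ A * T * Real.log T / R) ∧
      ∀ w ∈ ball (t : ℂ) (R / 8), ∀ w' ∈ ball (t : ℂ) (R / 8),
        ‖deriv h w - deriv h w'‖ ≤ A * T * Real.log T / R ^ 2 * ‖w - w'‖ := by
  classical
  obtain ⟨A, hA, H⟩ := near
  refine ⟨28800 * A + 128, by positivity, fun T R t δ U hR hRT ht₁ ht₂ hU hcard => ?_⟩
  obtain ⟨h, hd, hf, hre⟩ := H T R t δ U hR hRT ht₁ ht₂ hU hcard
  have hT0 : 0 < T := by linarith
  have hR0 : 0 < R := by linarith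
  have hL : 1 ≤ Real.log T := by
    rw [Real.le_log_iff_exp_le hT0]
    linarith [Real.exp_one_lt_d9]
  set L := Real.log T with hLdef
  obtain ⟨d1, d2⟩ := Factor.deriv_bounds h t (t - I) R _ hR (by positivity) (by simp) hd hre
  set W := U.filter fun u => ¬ |u - t| ≤ R / 4 with hW
  have hWa : ∀ u ∈ W, R / 4 ≤ |u - t| := fun u hu => (not_le.1 (Finset.mem_filter.1 hu).2).le
  have hWc : (W.card : ℝ) ≤ 2 * T * L :=
    le_trans (Nat.cast_le.2 (Finset.card_filter_le _ _)) hcard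
  obtain ⟨k, hk⟩ := log_prod W t (R / 4) hWa
  have hsub : ball (t : ℂ) (R / 8) ⊆ ball (t : ℂ) (R / 4) := ball_subset_ball (by linarith)
  have hder : ∀ w ∈ ball (t : ℂ) (R / 8),
      HasDerivAt (fun w => h w - k w) (deriv h w - ∑ u ∈ W, (w - (u : ℂ))⁻¹) w := fun w hw =>
    (hd.differentiableAt (isOpen_ball.mem_nhds (hsub hw))).hasDerivAt.sub (hk w (hsub hw)).2
  have hfar : ∀ w ∈ ball (t : ℂ) (R / 8), ∀ u ∈ W, R / 8 ≤ ‖w - (u : ℂ)‖ := by
    intro w hw u hu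
    rw [mem_ball, dist_eq_norm] at hw
    have h1 : ‖(u : ℂ) - t‖ ≤ ‖w - t‖ + ‖w - u‖ := by
      calc ‖(u : ℂ) - t‖ = ‖(w - t) - (w - u)‖ := by rw [sub_sub_sub_cancel_left]
        _ ≤ _ := norm_sub_le _ _
    have h2 := hWa u hu
    rw [← ofReal_sub, norm_real, Real.norm_eq_abs] at h1
    linarith
  have hinv : ∀ w ∈ ball (t : ℂ) (R / 8), ∀ u ∈ W, ‖(w - (u : ℂ))⁻¹‖ ≤ 8 / R := by
    intro w hw u hu
    rw [norm_inv, ← inv_div R 8]
    exact inv_anti₀ (by positivity) (hfar w hw u hu)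
  refine ⟨fun w => h w - k w, fun w hw => (hder w hw).differentiableAt.differentiableWithinAt,
    fun w hw => ?_, fun w hw => ?_, fun w hw w' hw' => ?_⟩
  · rw [hf w (hsub hw), ← Finset.prod_filter_mul_prod_filter_not U (fun u => |u - t| ≤ R / 4),
      ← hW, (hk w (hsub hw)).1, mul_assoc, ← exp_add, add_sub_cancel]
  · rw [(hder w hw).deriv]
    have h1 := d1 w (ball_subset_ball (by linarith) hw)
    have h2 : ‖∑ u ∈ W, (w - (u : ℂ))⁻¹‖ ≤ W.card * (8 / R) := by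
      refine (norm_sum_le _ _).trans ?_
      rw [← nsmul_eq_mul]
      exact Finset.sum_le_card_nsmul _ _ _ (hinv w hw)
    have h3 : (W.card : ℝ) * (8 / R) ≤ 2 * T * L * (8 / R) := by gcongr
    calc _ ≤ ‖deriv h w‖ + ‖∑ u ∈ W, (w - (u : ℂ))⁻¹‖ := norm_sub_le _ _
      _ ≤ 720 * (A * T * L) / R + 2 * T * L * (8 / R) := by linarith
      _ = (720 * A + 16) * T * L / R := by ring
      _ ≤ _ := by gcongr <;> norm_num
  · rw [(hder w hw).deriv, (hder w' hw').deriv]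
    have h1 := d2 w hw w' hw'
    have h2 : ‖∑ u ∈ W, ((w' - (u : ℂ))⁻¹ - (w - (u : ℂ))⁻¹)‖ ≤
        W.card * (8 / R * (8 / R) * ‖w - w'‖) := by
      refine (norm_sum_le _ _).trans ?_
      rw [← nsmul_eq_mul]
      refine Finset.sum_le_card_nsmul _ _ _ fun u hu => ?_
      have a1 : w - (u : ℂ) ≠ 0 :=
        norm_pos_iff.1 (lt_of_lt_of_le (by positivity) (hfar w hw u hu))
      have a2 : w' - (u : ℂ) ≠ 0 :=
        norm_pos_iff.1 (lt_of_lt_of_le (by positivity) (hfar w' hw' u hu))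
      have a3 : (w' - (u : ℂ))⁻¹ - (w - (u : ℂ))⁻¹ =
          (w' - (u : ℂ))⁻¹ * (w - (u : ℂ))⁻¹ * (w - w') := by
        field_simp
        ring
      rw [a3, norm_mul, norm_mul]
      have a4 := hinv w hw u hu
      have a5 := hinv w' hw' u hu
      gcongr
    have h3 : (W.card : ℝ) * (8 / R * (8 / R) * ‖w - w'‖) ≤
        2 * T * L * (8 / R * (8 / R) * ‖w - w'‖) := by gcongr
    have h4 : deriv h w - ∑ u ∈ W, (w - (u : ℂ))⁻¹ - (deriv h w' - ∑ u ∈ W, (w' - (u : ℂ))⁻¹) =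
        (deriv h w - deriv h w') + ∑ u ∈ W, ((w' - (u : ℂ))⁻¹ - (w - (u : ℂ))⁻¹) := by
      rw [Finset.sum_sub_distrib]
      ring
    rw [h4]
    calc _ ≤ ‖deriv h w - deriv h w'‖ + ‖∑ u ∈ W, ((w' - (u : ℂ))⁻¹ - (w - (u : ℂ))⁻¹)‖ :=
          norm_add_le _ _
      _ ≤ 720 * (A * T * L) / R * 40 / R * ‖w - w'‖ +
          2 * T * L * (8 / R * (8 / R) * ‖w - w'‖) := by linarith
      _ = _ := by
        field_simp
        ring

/-- The imaginary part of `h'` at the centre. -/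
theorem phase_at : ∃ K : ℝ, 0 ≤ K ∧ ∀ (T t r D : ℝ) (U : Finset ℝ) (h : ℂ → ℂ), 3 ≤ T → T ≤ t →
    t ≤ 2 * T → 2 < r → DifferentiableOn ℂ h (ball (t : ℂ) r) →
    (∀ w ∈ ball (t : ℂ) r, zf w = (∏ u ∈ U, (w - (u : ℂ))) * exp (h w)) →
    (∀ w ∈ closedBall (t : ℂ) 2, ‖deriv h w - deriv h t‖ ≤ D) →
    |(deriv h t).im + Real.log T / 2| ≤ K + D := by
  obtain ⟨C₀, hC₀, hR⟩ := zf_right
  obtain ⟨c, C₁, hc, hC₁, hL⟩ := zf_left
  refine ⟨|Real.log c| + |Real.log C₁| + |Real.log C₀|, by positivity, ?_⟩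
  intro T x r D V h hT hx1 hx2 hr2 hd hf hD
  have hT0 : 0 < T := by linarith
  have hsub : closedBall (x : ℂ) 2 ⊆ ball (x : ℂ) r := closedBall_subset_ball hr2
  have m1 := Lower.vert_mem x (3 / 2) (by rw [abs_of_pos] <;> norm_num)
  have m2 := Lower.vert_mem x (-(3 / 2)) (by rw [abs_neg, abs_of_pos] <;> norm_num)
  have f1 := congrArg norm (hf _ (hsub m1))
  have f2 := congrArg norm (hf _ (hsub m2))
  rw [norm_mul, Complex.norm_exp] at f1 f2
  rw [Lower.norm_prod_neg] at f1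
  obtain ⟨l1, l2⟩ := hL T hT x hx1 hx2
  obtain ⟨r0, r1, r2⟩ := hR ((x : ℂ) + (-(3 / 2) : ℝ) * I) (by simp; norm_num)
  have key := (convex_closedBall (x : ℂ) 2).norm_image_sub_le_of_norm_hasDerivWithin_le
    (f := fun z => h z - z * deriv h x) (f' := fun z => deriv h z - deriv h x) (C := D)
    (fun z hz => by
      have := (hd.differentiableAt (isOpen_ball.mem_nhds (hsub hz))).hasDerivAt.sub
        ((hasDerivAt_id z).mul_const (deriv h x))
      simp only [one_mul, id] at this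
      exact this.hasDerivWithinAt) hD m2 m1
  set P := ‖∏ u ∈ V, ((x : ℂ) + (-(3 / 2) : ℝ) * I - u)‖ with hP
  set A := h ((x : ℂ) + (3 / 2 : ℝ) * I) with hA
  set B := h ((x : ℂ) + (-(3 / 2) : ℝ) * I) with hB
  have hz : 0 < ‖zf ((x : ℂ) + (-(3 / 2) : ℝ) * I)‖ := norm_pos_iff.2 r0
  have hP0 : 0 < P := by
    rw [f2] at hz
    exact (mul_pos_iff_of_pos_right (Real.exp_pos _)).1 hz
  have hr : 0 < T ^ (3 / 2 : ℝ) := Real.rpow_pos_of_pos hT0 _
  rw [f1] at l1 l2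
  rw [norm_inv, f2] at r2
  rw [f2] at r1
  have a1 := Real.log_le_log (by positivity) l1
  have a2 := Real.log_le_log (by positivity) l2
  have a3 := Real.log_le_log (by positivity) r1
  have a4 := Real.log_le_log (by positivity) r2
  rw [Real.log_mul hc.ne' hr.ne', Real.log_mul hP0.ne' (Real.exp_pos _).ne', Real.log_exp,
    Real.log_rpow hT0] at a1
  rw [Real.log_mul hC₁.ne' hr.ne', Real.log_mul hP0.ne' (Real.exp_pos _).ne', Real.log_exp,
    Real.log_rpow hT0] at a2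
  rw [Real.log_mul hP0.ne' (Real.exp_pos _).ne', Real.log_exp] at a3
  rw [Real.log_inv, Real.log_mul hP0.ne' (Real.exp_pos _).ne', Real.log_exp] at a4
  have e : (x : ℂ) + (3 / 2 : ℝ) * I - ((x : ℂ) + (-(3 / 2) : ℝ) * I) = (3 : ℝ) * I := by
    push_cast; ring
  rw [e, norm_mul, Complex.norm_I, Complex.norm_real, Real.norm_eq_abs,
    abs_of_pos (show (0 : ℝ) < 3 by norm_num)] at key
  have t2 := (Complex.abs_re_le_norm _).trans key
  have e2 : (A - ((x : ℂ) + (3 / 2 : ℝ) * I) * deriv h x -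
      (B - ((x : ℂ) + (-(3 / 2) : ℝ) * I) * deriv h x)).re =
      A.re - B.re + 3 * (deriv h x).im := by
    simp
    ring
  rw [e2] at t2
  obtain ⟨t3, t4⟩ := abs_le.1 t2
  have b1 := le_abs_self (Real.log c)
  have b2 := neg_abs_le (Real.log c)
  have b3 := le_abs_self (Real.log C₁)
  have b4 := neg_abs_le (Real.log C₁)
  have b5 := le_abs_self (Real.log C₀)
  have b6 := neg_abs_le (Real.log C₀)
  rw [abs_le]
  constructor <;> linarith

theorem lf : LFStmt := by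
  intro η hη
  obtain ⟨A, hA, H⟩ := full
  obtain ⟨K, hK, HK⟩ := phase_at
  set B := A / η ^ 2 with hB
  have hB0 : 0 < B := by positivity
  refine ⟨1 + K + 2 * B, by linarith, ?_⟩
  filter_upwards [eventually_ge_atTop (200 : ℝ), eventually_ge_atTop (80 / η),
    eventually_ge_atTop ((4 / η) ^ 2)] with T hT hT₁ hT₂ δ U hδ hU t ht₁ ht₂
  have hT0 : 0 < T := by linarith
  have hL := Lower.log_pos' hT
  set L := Real.log T with hLdef
  have hη2 : η ≤ 1 / 2 := by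
    by_contra hc
    have : 0 < (2 * η - 1) * T := mul_pos (by linarith [not_le.1 hc]) hT0
    nlinarith
  have hηT : 0 < η * T := mul_pos hη hT0
  have hδ0 : 0 < δ := lt_of_lt_of_le (by positivity) hδ
  have hcard : (U.card : ℝ) ≤ 2 * T * L := by
    have h1 := Factor.card_le U δ T T hδ0 hT0.le
      (fun u hu => ⟨(hU.mem u hu).1, by linarith [(hU.mem u hu).2]⟩) hU.sep
    have h2 : T / δ ≤ T * L := by
      rw [div_le_iff₀ hδ0]
      have : 1 ≤ L * δ := by
        rw [div_le_iff₀ (by linarith)] at hδ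
        linarith
      nlinarith
    nlinarith
  have hR : 160 ≤ 2 * (η * T) := by
    rw [div_le_iff₀ hη] at hT₁
    linarith
  obtain ⟨h, hd, hf, d1, d2⟩ := H T (2 * (η * T)) t δ U hR (by nlinarith) (by linarith)
    (by linarith) hU hcard
  have hsq : √T ≤ 2 * (η * T) / 8 := by
    have h1 : 4 / η ≤ √T := Real.le_sqrt_of_sq_le hT₂
    have h2 : √T * √T = T := Real.mul_self_sqrt hT0.le
    have h3 : 0 ≤ √T := Real.sqrt_nonneg T
    rw [div_le_iff₀ hη] at h1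
    nlinarith
  have hs2 : 2 < √T := Real.lt_sqrt_of_sq_lt (by linarith)
  have hsub : ball (t : ℂ) √T ⊆ ball (t : ℂ) (2 * (η * T) / 8) := ball_subset_ball hsq
  have e1 : A * T * L / (2 * (η * T)) ≤ B * L := by
    have : A * T * L / (2 * (η * T)) = B * L * (η / 2) := by
      rw [hB]
      field_simp
    rw [this]
    exact mul_le_of_le_one_right (by positivity) (by linarith)
  have e2 : A * T * L / (2 * (η * T)) ^ 2 ≤ B * L / T := by
    have : A * T * L / (2 * (η * T)) ^ 2 = B * L / T * (1 / 4) := by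
      rw [hB]
      field_simp
      ring
    rw [this]
    exact mul_le_of_le_one_right (by positivity) (by norm_num)
  have d2' : ∀ w ∈ ball (t : ℂ) √T, ∀ w' ∈ ball (t : ℂ) √T,
      ‖deriv h w - deriv h w'‖ ≤ B * L / T * ‖w - w'‖ := fun w hw w' hw' =>
    (d2 w (hsub hw) w' (hsub hw')).trans (mul_le_mul_of_nonneg_right e2 (norm_nonneg _))
  have hBC : B ≤ 1 + K + 2 * B := by linarith
  refine ⟨h, hd.mono hsub, fun w hw => hf w (hsub hw), fun w hw => ?_, fun w hw w' hw' => ?_, ?_⟩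
  · refine ((d1 w (hsub hw)).trans e1).trans ?_
    gcongr
  · refine (d2' w hw w' hw').trans ?_
    gcongr
  · have hLT : L / T ≤ 1 := by
      rw [div_le_one hT0]
      linarith [Real.log_le_sub_one_of_pos hT0]
    have := HK T t √T (2 * B) U h (by linarith) (by linarith) (by linarith) hs2 (hd.mono hsub)
      (fun w hw => hf w (hsub hw)) fun w hw => by
        refine (d2' w (closedBall_subset_ball hs2 hw) t (mem_ball_self (by linarith))).trans ?_
        rw [mem_closedBall, dist_eq_norm] at hw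
        calc B * L / T * ‖w - t‖ = B * (L / T) * ‖w - t‖ := by ring
          _ ≤ B * 1 * 2 := by gcongr
          _ = 2 * B := by ring
    linarith

end Pool.Agent.MP_ca0a54_nt.H51
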